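import Mathlib
import Pool.Agent.Lib.MP_551055_al.Trim.LS.Stmts
import Pool.Agent.Lib.MP_551055_al.Trim.T6.Nil
import Pool.Agent.Lib.MP_551055_al.Trim.W17.StF
import Pool.Agent.Lib.MP_551055_al.Trim.X.MP_e6f638_al.I1
import Pool.Agent.Lib.MP_551055_al.Trim.X.MP_e6f638_al.Stmts

/-!
# Even Artin groups and actions on trees: definitions and statements of the modules
-/

set_option autoImplicit false

namespace Pool.Agent.Lib.MP_e6f638_al
end Pool.Agent.Lib.MP_e6f638_al

namespace Pool.Agent.Lib.MP_551055_al.LS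
end Pool.Agent.Lib.MP_551055_al.LS

namespace Pool.Agent.Lib.MP_551055_al.W17
end Pool.Agent.Lib.MP_551055_al.W17

namespace Pool.Agent.Lib.MP_551055_al.EA

open Pool.Agent.Lib.MP_e6f638_al (EA gen par rho)

open Pool.Agent.Lib.MP_551055_al.LS (TreeAct)

open Pool.Agent.Lib.MP_551055_al.W17 (SF)

/-- Groups of tree dimension at most `n`: the trivial groups, and the groups which act without
inversions on a tree with vertex stabilisers of dimension `n` and edge stabilisers of dimension
`n - 1`. -/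
inductive TD : ℕ → ∀ (G : Type) [Group G], Prop
  | trivial (n : ℕ) (G : Type) [Group G] : Subsingleton G → TD n G
  | tree (n : ℕ) (G : Type) [Group G] (V : Type) [MulAction G V] (T : SimpleGraph V) :
      TreeAct G V T → (∀ v : V, TD (n + 1) (MulAction.stabilizer G v)) →
      (∀ u v : V, T.Adj u v → TD n (MulAction.stabilizer G (u, v))) → TD (n + 1) G

/-- Module TD. Tree dimension at most two. -/
def StTD : Prop :=
  ∀ (G : Type) [Group G], TD 2 G → SF G ∧ T6.StLPS G

/-- Module Am. The tree of the amalgam at an infinite label. -/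
def StAm : Prop :=
  ∀ (S : Type) (l : S → S → ℕ), (∀ s t, l s t = l t s) → ∀ s t : S, s ≠ t → l s t = 0 →
    ∃ (V : Type) (_ : MulAction (EA l) V) (T : SimpleGraph V), TreeAct (EA l) V T ∧
      ∀ v : V, ∃ x : EA l, (∀ g ∈ MulAction.stabilizer (EA l) v, x⁻¹ * g * x ∈ par l {s}ᶜ) ∨
        (∀ g ∈ MulAction.stabilizer (EA l) v, x⁻¹ * g * x ∈ par l {t}ᶜ)

/-- Module Pr. The tree of a pair of generators. -/
def StPr : Prop :=
  ∀ (S : Type) (l : S → S → ℕ), (∀ s t, l s t = l t s) → ∀ s t : S, s ≠ t →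
    ∃ (V : Type) (_ : MulAction (EA l) V) (T : SimpleGraph V), TreeAct (EA l) V T ∧
      ∀ v : V, ∃ x : EA l, ∀ g ∈ MulAction.stabilizer (EA l) v, ∃ n : ℤ,
        rho l {s, t} g = x * (gen l s * gen l t) ^ n * x⁻¹

/-- Module Li. The line of a generator. -/
def StLi : Prop :=
  ∀ (S : Type) (l : S → S → ℕ), (∀ s t, l s t = l t s) → ∀ s : S,
    ∃ (V : Type) (_ : MulAction (EA l) V) (T : SimpleGraph V), TreeAct (EA l) V T ∧
      ∀ v : V, ∀ g ∈ MulAction.stabilizer (EA l) v, rho l {s} g = 1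

end Pool.Agent.Lib.MP_551055_al.EA
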