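import Mathlib
import Pool.Agent.Lib.MP_551055_al.Trim.AT70.Artin
import Pool.Agent.Lib.MP_551055_al.Trim.AT70.Tree
import Pool.Agent.Lib.MP_551055_al.Trim.EA.Stmts
import Pool.Agent.Lib.MP_551055_al.Trim.LS.Stmts
import Pool.Agent.Lib.MP_551055_al.Trim.X.MP_e6f638_al.I1
import Pool.Agent.Lib.MP_551055_al.Trim.X.MP_e6f638_al.Stmts

/-!
# Module Am: the tree of the amalgam at an infinite label
-/

set_option autoImplicit false

namespace Pool.Agent.Lib.MP_e6f638_al
end Pool.Agent.Lib.MP_e6f638_al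

namespace Pool.Agent.Lib.MP_551055_al.LS
end Pool.Agent.Lib.MP_551055_al.LS

namespace Pool.Agent.Lib.MP_551055_al.EA

open Pool.Agent.Lib.MP_e6f638_al (EA gen par rho)

open Pool.Agent.Lib.MP_551055_al.LS (TreeAct)

theorem par_mono38 {S : Type} (l : S → S → ℕ) {X Y : Set S} (h : X ⊆ Y) : par l X ≤ par l Y :=
  Subgroup.closure_mono (Set.image_mono h)

theorem stAm : StAm := by
  intro S l hl s t hst h0
  have hT := AT70.artin_tree l s t hst h0 ((hl t s).trans h0)
  refine ⟨AT70.Vert (AT70.baseC l s t) (AT70.facP l s t), inferInstance,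
    AT70.graph (AT70.baseC l s t) (AT70.facP l s t),
    ⟨hT, fun a x y h => AT70.adj_smul a x y h, fun a x y h hxy => AT70.no_inversion a x y h hxy⟩, ?_⟩
  rintro (v | ⟨i, v⟩)
  · obtain ⟨g, rfl⟩ := QuotientGroup.mk_surjective v
    refine ⟨g, Or.inl fun a ha => ?_⟩
    rw [MulAction.mem_stabilizer_iff] at ha
    have h1 := (AT70.smul_inl (P := AT70.facP l s t) a g).1 ha
    exact par_mono38 l (fun x hx => hx.1) h1
  · obtain ⟨g, rfl⟩ := QuotientGroup.mk_surjective v
    refine ⟨g, ?_⟩
    cases i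
    · right
      intro a ha
      rw [MulAction.mem_stabilizer_iff] at ha
      exact (AT70.smul_inr (C := AT70.baseC l s t) a g false).1 ha
    · left
      intro a ha
      rw [MulAction.mem_stabilizer_iff] at ha
      exact (AT70.smul_inr (C := AT70.baseC l s t) a g true).1 ha

end Pool.Agent.Lib.MP_551055_al.EA
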