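import Mathlib
import Pool.Agent.Lib.MP_551055_al.Trim.LS.Stmts
import Pool.Agent.Lib.MP_551055_al.Trim.MT.Base
import Pool.Agent.Lib.MP_551055_al.Trim.RI.HNN
import Pool.Agent.Lib.MP_551055_al.Trim.X.MP_e6f638_al.Stmts

/-!
# Homomorphisms to HNN extensions and actions on trees
-/

set_option autoImplicit false

namespace Pool.Agent.Lib.MP_551055_al.LS
end Pool.Agent.Lib.MP_551055_al.LS

namespace Pool.Agent.Lib.MP_551055_al.RI
end Pool.Agent.Lib.MP_551055_al.RI

namespace Pool.Agent.Lib.MP_551055_al.EA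

open Pool.Agent.Lib.MP_551055_al.LS (TreeAct)

open Pool.Agent.Lib.MP_551055_al.RI (hV hT hB hT_treeAct mem_stab_hV)

open HNNExtension

/-- Actions along homomorphisms. -/
theorem TreeAct.comp {K Q : Type} [Group K] [Group Q] {V : Type} [MulAction Q V]
    {T : SimpleGraph V} (hT : TreeAct Q V T) (f : K →* Q) [MulAction K V]
    (h : ∀ (k : K) (v : V), k • v = f k • v) : TreeAct K V T where
  tree := hT.tree
  adj k u v huv := by
    rw [h, h]
    exact hT.adj (f k) u v huv
  inv k u v huv := by
    rw [h, h]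
    exact hT.inv (f k) u v huv

section

variable {G : Type} [Group G] (B : Subgroup G)

/-- The elements of `G` which fix an edge at the base vertex. -/
theorem mem_of_conj (g : G) (u : ℤˣ)
    (h : (t ^ (u : ℤ))⁻¹ * of g * t ^ (u : ℤ) ∈ hB B B (MulEquiv.refl B)) : g ∈ B := by
  by_contra hg
  let w : NormalWord.ReducedWord G B B :=
    { head := 1
      toList := [(-u, g), (u, 1)]
      chain := by
        rw [List.isChain_pair]
        intro h1
        exfalso
        apply hg
        rcases Int.units_eq_one_or u with rfl | rfl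
        · simpa using h1
        · simpa using h1 }
  have h1 : w.prod (MulEquiv.refl B) = (t ^ (u : ℤ))⁻¹ * of g * t ^ (u : ℤ) := by
    simp [w, NormalWord.ReducedWord.prod, mul_assoc]
  have h2 := ReducedWord.toList_eq_nil_of_mem_of_range (MulEquiv.refl B) w (by rw [h1]; exact h)
  simp [w] at h2

variable {K : Type} [Group K] (σ : K →* HNNExtension G B B (MulEquiv.refl B))

/-- A group with a homomorphism to an HNN extension acts on the Bass-Serre tree. -/
theorem exists_tree_hnn : ∃ (V : Type) (_ : MulAction K V) (T : SimpleGraph V), TreeAct K V T ∧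
    (∀ w : V, ∃ x : HNNExtension G B B (MulEquiv.refl B), ∀ q : K, q • w = w →
      ∃ g : G, σ q = x * of g * x⁻¹) ∧
    (∀ w w' : V, T.Adj w w' → ∃ x : HNNExtension G B B (MulEquiv.refl B), ∀ q : K, q • w = w →
      q • w' = w' → ∃ g ∈ B, σ q = x * of g * x⁻¹) := by
  let a : MulAction K (hV B B (MulEquiv.refl B)) := MulAction.compHom _ σ
  have ha : ∀ (k : K) (v : hV B B (MulEquiv.refl B)), k • v = σ k • v := fun _ _ => rfl
  refine ⟨hV B B (MulEquiv.refl B), a, hT B B (MulEquiv.refl B),
    TreeAct.comp (hT_treeAct B B (MulEquiv.refl B)) σ ha, fun w => ?_, ?_⟩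
  · induction w using QuotientGroup.induction_on with
    | H x =>
    refine ⟨x, fun q hq => ?_⟩
    rw [ha, mem_stab_hV] at hq
    obtain ⟨g, hg⟩ := hq
    exact ⟨g, by rw [hg]; group⟩
  · rintro w w' ⟨x, u, rfl, rfl⟩
    refine ⟨x, fun q hq hq' => ?_⟩
    rw [ha, mem_stab_hV] at hq hq'
    obtain ⟨g, hg⟩ := hq
    refine ⟨g, ?_, by rw [hg]; group⟩
    refine mem_of_conj B g u ?_
    rw [hg]
    convert hq' using 1
    group

end

end Pool.Agent.Lib.MP_551055_al.EA
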