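import Mathlib
import Pool.Agent.Lib.MP_551055_al.Trim.X.MP_e6f638_al.A
import Pool.Agent.Lib.MP_551055_al.Trim.X.MP_e6f638_al.I1
import Pool.Agent.Lib.MP_551055_al.Trim.X.MP_e6f638_al.I3
import Pool.Agent.Lib.MP_551055_al.Trim.X.MP_e6f638_al.Main
import Pool.Agent.Lib.MP_551055_al.Trim.X.MP_e6f638_al.Stmts

/-!
# Condition (W) for the splitting at a generator, local hypotheses
-/

set_option autoImplicit false

namespace Pool.Agent.Lib.MP_e6f638_al
end Pool.Agent.Lib.MP_e6f638_al

namespace Pool.Agent.Lib.MP_e6f638_al.I3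
end Pool.Agent.Lib.MP_e6f638_al.I3

namespace Pool.Agent.Lib.MP_551055_al.EA

open Pool.Agent.Lib.MP_e6f638_al Pool.Agent.Lib.MP_e6f638_al.I3 Multiplicative

/-- The generator `u` is in no triple with labels `4, 4, 2`. -/
def Loc1 {S : Type} (l : S → S → ℕ) (u : S) : Prop :=
  ∀ s t : S, s ≠ u → t ≠ u → s ≠ t →
    ¬ (l u s = 2 ∧ l u t = 2 ∧ l s t = 1) ∧ ¬ (l s u = 2 ∧ l s t = 2 ∧ l u t = 1)

/-- At most two of the labels at `u` are `4`, and these neighbours of `u` commute with all
generators which commute with `u`. -/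
def Loc2 {S : Type} (l : S → S → ℕ) (u : S) : Prop :=
  (∀ c x, c ≠ u → x ≠ u → l u c = 1 → l u x = 2 → l c x = 1) ∧
    ∃ s t : S, ∀ x, x ≠ u → l u x = 2 → x = s ∨ x = t

theorem w_of_loc1 (h1 : StI1) (hH : StH) {S : Type} [Finite S] (l : S → S → ℕ)
    (hsymm : ∀ s t, l s t = l t s) (u : S) (hno : Loc1 l u) (D : Dat (EA (del l u)))
    (hD : IsDatOf l u D) : D.W := by
  classical
  choose s hs hls using hD.t
  have hsymm' : ∀ a b, del l u a b = del l u b a := fun a b => hsymm a b
  have hsinj : Function.Injective s := by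
    intro a b hab
    apply hD.inj
    rw [hs, hs, hab]
  -- words all of whose letters have half label two
  have star : ∀ L : List (D.ι × ℤˣ × EA (del l u)), L ≠ [] →
      (∀ p ∈ L, D.l p.1 = 2 ∧ p.2.2 ∈ D.B) → L.IsChain (Alt D) → tw D L ∉ D.B := by
    intro L hL0 hL hch
    let X : Set {x : S // x ≠ u} := {x | l u x = 1 ∨ l u x = 2}
    let lX : X → X → ℕ := fun a b => del l u a b
    obtain ⟨j, hj, hjinj⟩ := (h1 _ (del l u) hsymm').2.2.2 X
    let N : Set X := {x | l u ((x : {x : S // x ≠ u}) : S) = 2}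
    have hB : D.B = (par lX Nᶜ).map j := by
      rw [hD.B, par, par, MonoidHom.map_closure]
      congr 1
      ext y
      constructor
      · rintro ⟨c, hc, rfl⟩
        have hc' : l u c = 1 := hc
        refine ⟨gen lX ⟨c, Or.inl hc'⟩, ⟨⟨c, Or.inl hc'⟩, ?_, rfl⟩, hj _⟩
        intro h2
        have h3 : l u (c : S) = 2 := h2
        omega
      · rintro ⟨_, ⟨x, hx, rfl⟩, rfl⟩
        refine ⟨x, ?_, (hj x).symm⟩
        rcases x.2 with h2 | h2
        · exact h2
        · exact absurd h2 hx
    have hβ : ∀ g : EA (del l u), g ∈ D.B → ∃ y ∈ par lX Nᶜ, j y = g := by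
      intro g hg
      rw [hB] at hg
      exact Subgroup.mem_map.1 hg
    choose! β hβ1 hβ2 using hβ
    obtain ⟨p₀, hp₀⟩ := List.exists_mem_of_ne_nil L hL0
    have hx₀ : l u (s p₀.1) = 2 := (hls _).trans (hL p₀ hp₀).1
    let F : D.ι × ℤˣ × EA (del l u) → Letter lX := fun p =>
      (if h : l u (s p.1) = 2 then ⟨s p.1, Or.inr h⟩ else ⟨s p₀.1, Or.inr hx₀⟩, p.2.1, β p.2.2)
    have hF : ∀ p, D.l p.1 = 2 → (((F p).1 : X) : {x : S // x ≠ u}) = s p.1 := by
      intro p hp
      have h2 : l u (s p.1) = 2 := (hls _).trans hp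
      simp only [F, dif_pos h2]
    have hFN : ∀ p, D.l p.1 = 2 → (F p).1 ∈ N := by
      intro p hp
      change l u (((F p).1 : X) : {x : S // x ≠ u}) = 2
      rw [hF p hp]
      exact (hls _).trans hp
    have hw : j (wprod lX (L.map F)) = tw D L := by
      unfold wprod tw
      rw [map_list_prod, List.map_map, List.map_map]
      congr 1
      refine List.map_congr_left fun p hp => ?_
      change j (gen lX (F p).1 ^ ((F p).2.1 : ℤ) * (F p).2.2) = D.t p.1 ^ (p.2.1 : ℤ) * p.2.2
      rw [map_mul, map_zpow, hj, hF p (hL p hp).1, ← hs]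
      congr 1
      exact hβ2 _ (hL p hp).2
    have hnot := hH X lX (fun a b => hsymm _ _) N ?_ ?_ (L.map F) ?_ ⟨?_, ?_⟩ ?_
    · intro hmem
      rw [hB] at hmem
      obtain ⟨y, hy, hjy⟩ := Subgroup.mem_map.1 hmem
      rw [← hw] at hjy
      rw [hjinj hjy] at hy
      exact hnot hy
    · intro a ha b hb hab h2
      have ha' : l u ((a : {x : S // x ≠ u}) : S) = 2 := ha
      have hb' : l u ((b : {x : S // x ≠ u}) : S) = 2 := hb
      refine (hno a b a.1.2 b.1.2 ?_).1 ⟨ha', hb', h2⟩
      intro h3
      exact hab (Subtype.ext (Subtype.ext h3))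
    · intro a ha c hc h2
      have ha' : l u ((a : {x : S // x ≠ u}) : S) = 2 := ha
      have hc' : l u ((c : {x : S // x ≠ u}) : S) = 1 := by
        rcases c.2 with h3 | h3
        · exact h3
        · exact absurd h3 hc
      refine (hno a c a.1.2 c.1.2 ?_).2 ⟨by rw [hsymm]; exact ha', h2, hc'⟩
      intro h3
      apply hc
      have h4 : a = c := Subtype.ext (Subtype.ext h3)
      rw [← h4]
      exact ha
    · simpa using hL0
    · intro q hq
      obtain ⟨p, hp, rfl⟩ := List.mem_map.1 hq
      exact ⟨hFN p (hL p hp).1, hβ1 _ (hL p hp).2⟩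
    · rw [List.isChain_map]
      refine hch.imp_of_mem_imp fun a b ha hb hab h2 h3 => ?_
      have h4 : a.1 = b.1 := by
        apply hsinj
        rw [← hF a (hL a ha).1, ← hF b (hL b hb).1, h2]
      refine fun h5 => hab.2 h4 ?_
      have h6 := h5.map j
      have h7 : j (F a).2.2 = a.2.2 := hβ2 _ (hL a ha).2
      rw [h7, hj, hF a (hL a ha).1, ← hs] at h6
      exact h6
    · have h2 : defects ((L.map F).map fun p => p.2.1) = 0 := by
        apply defects_alt
        rw [List.map_map, List.isChain_map]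
        exact hch.imp fun a b hab => hab.1
      rw [h2]
      exact Nat.zero_le _
  exact w_core h1 l hsymm u D hD star

theorem w_of_loc2 (h1 : StI1) {S : Type} (l : S → S → ℕ)
    (hsymm : ∀ s t, l s t = l t s) (u : S) (hno : Loc2 l u) (D : Dat (EA (del l u)))
    (hD : IsDatOf l u D) : D.W := by
  classical
  choose s hs hls using hD.t
  have hsinj : Function.Injective s := by
    intro a b hab
    apply hD.inj
    rw [hs, hs, hab]
  obtain ⟨hC, p, q, hpq⟩ := hno
  let f : {x : S // x ≠ u} → ℤ := fun x => if l u x = 2 then (if (x : S) = p then 1 else -1) else 0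
  have hB : ∀ b ∈ D.B, wt (del l u) f b = 1 := by
    intro b hb
    rw [hD.B] at hb
    refine wt_par (del l u) (fun c hc => ?_) hb
    have h2 : l u c ≠ 2 := by
      have h3 : l u c = 1 := hc
      omega
    simp only [f, if_neg h2]
  have hcomm : ∀ i, D.l i = 2 → ∀ b ∈ D.B, Commute b (D.t i) := by
    intro i hi b hb
    rw [hD.B] at hb
    induction hb using Subgroup.closure_induction with
    | mem x hx =>
      obtain ⟨c, hc, rfl⟩ := hx
      have h2 := gen_rel (del l u) c (s i)
      have h3 : del l u c (s i) = 1 := hC c (s i) c.2 (s i).2 hc ((hls i).trans hi)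
      rw [h3, pow_one, pow_one] at h2
      rw [hs i]
      exact h2
    | one => exact Commute.one_left _
    | mul x y _ _ hx hy => exact hx.mul_left hy
    | inv x _ hx => exact hx.inv_left
  have hf : ∀ i, D.l i = 2 → f (s i) = 1 ∨ f (s i) = -1 := by
    intro i hi
    have h2 : l u (s i) = 2 := (hls i).trans hi
    by_cases h : ((s i : {x : S // x ≠ u}) : S) = p
    · left; simp only [f, if_pos h2, if_pos h]
    · right; simp only [f, if_pos h2, if_neg h]
  have hff : ∀ i j, D.l i = 2 → D.l j = 2 → i ≠ j → f (s j) = - f (s i) := by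
    intro i j hi hj hij
    have h2 : ((s i : {x : S // x ≠ u}) : S) ≠ s j := fun h => hij (hsinj (Subtype.ext h))
    have h3 := hpq (s i) (s i).2 ((hls i).trans hi)
    have h4 := hpq (s j) (s j).2 ((hls j).trans hj)
    have h3' : l u (s i) = 2 := (hls i).trans hi
    have h4' : l u (s j) = 2 := (hls j).trans hj
    by_cases h : ((s i : {x : S // x ≠ u}) : S) = p
    · have h5 : ((s j : {x : S // x ≠ u}) : S) ≠ p := fun h6 => h2 (h.trans h6.symm)
      simp only [f, if_pos h3', if_pos h4', if_pos h, if_neg h5]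
    · have h5 : ((s j : {x : S // x ≠ u}) : S) = p := by
        rcases h4 with h4 | h4
        · exact h4
        · rcases h3 with h3 | h3
          · exact absurd h3 h
          · exact absurd (h3.trans h4.symm) h2
      simp only [f, if_pos h3', if_pos h4', if_neg h, if_pos h5]
      norm_num
  -- words all of whose letters have half label two
  have star : ∀ L : List (D.ι × ℤˣ × EA (del l u)), L ≠ [] →
      (∀ p ∈ L, D.l p.1 = 2 ∧ p.2.2 ∈ D.B) → L.IsChain (Alt D) → tw D L ∉ D.B := by
    have key : ∀ (L : List (D.ι × ℤˣ × EA (del l u))) (a : D.ι × ℤˣ × EA (del l u)),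
        (∀ p ∈ a :: L, D.l p.1 = 2 ∧ p.2.2 ∈ D.B) → (a :: L).IsChain (Alt D) →
        wt (del l u) f (tw D (a :: L)) =
          ofAdd ((L.length + 1 : ℤ) * ((a.2.1 : ℤ) * f (s a.1))) := by
      intro L
      induction L with
      | nil =>
        intro a ha _
        have h2 : wt (del l u) f a.2.2 = 1 := hB _ (ha a (by simp)).2
        rw [tw_cons, tw_nil, mul_one, map_mul, h2, mul_one, map_zpow, hs, wt_gen, ← ofAdd_zsmul]
        simp
      | cons b L ih =>
        intro a ha hch
        have h2 : wt (del l u) f a.2.2 = 1 := hB _ (ha a (by simp)).2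
        rw [List.isChain_cons_cons] at hch
        have h3 := ih b (fun p hp => ha p (List.mem_cons_of_mem _ hp)) hch.2
        have hij : a.1 ≠ b.1 := fun h => hch.1.2 h (hcomm _ (ha a (by simp)).1 _
          (ha a (by simp)).2)
        have h4 := hff a.1 b.1 (ha a (by simp)).1 (ha b (by simp)).1 hij
        rw [tw_cons, map_mul, map_mul, h2, mul_one, h3, map_zpow, hs, wt_gen, ← ofAdd_zsmul,
          ← ofAdd_add, hch.1.1, h4]
        congr 1
        push_cast
        simp only [smul_eq_mul, List.length_cons]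
        push_cast
        ring
    intro L hL0 hL hch h2
    cases L with
    | nil => exact hL0 rfl
    | cons a L =>
      have h3 := key L a hL hch
      rw [hB _ h2] at h3
      have h4 : ((L.length + 1 : ℤ) * ((a.2.1 : ℤ) * f (s a.1))) = 0 := (ofAdd_eq_one.1 h3.symm)
      have h5 := hf a.1 (hL a (by simp)).1
      have h6 : (a.2.1 : ℤ) ≠ 0 := a.2.1.ne_zero
      have h7 : (L.length + 1 : ℤ) ≠ 0 := by positivity
      rcases mul_eq_zero.1 h4 with h8 | h8
      · exact h7 h8
      · rcases mul_eq_zero.1 h8 with h9 | h9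
        · exact h6 h9
        · rcases h5 with h5 | h5 <;> omega
  exact w_core h1 l hsymm u D hD star

/-- Local conditions for the splitting at `u`. -/
theorem w_of_loc {S : Type} [Finite S] (l : S → S → ℕ) (hsymm : ∀ s t, l s t = l t s) (u : S)
    (hno : Loc1 l u ∨ Loc2 l u) (D : Dat (EA (del l u))) (hD : IsDatOf l u D) : D.W := by
  rcases hno with h | h
  · exact w_of_loc1 stI1 stH_all l hsymm u h D hD
  · exact w_of_loc2 stI1 l hsymm u h D hD

end Pool.Agent.Lib.MP_551055_al.EA
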