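import Mathlib
import Pool.Agent.Lib.MP_551055_al.Trim.EA.HN
import Pool.Agent.Lib.MP_551055_al.Trim.LS.Stmts
import Pool.Agent.Lib.MP_551055_al.Trim.X.MP_e6f638_al.E1
import Pool.Agent.Lib.MP_551055_al.Trim.X.MP_e6f638_al.F
import Pool.Agent.Lib.MP_551055_al.Trim.X.MP_e6f638_al.GDefs
import Pool.Agent.Lib.MP_551055_al.Trim.X.MP_e6f638_al.I1
import Pool.Agent.Lib.MP_551055_al.Trim.X.MP_e6f638_al.I2
import Pool.Agent.Lib.MP_551055_al.Trim.X.MP_e6f638_al.Stmts

/-!
# The tree of the splitting of an even Artin group at a generator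
-/

set_option autoImplicit false

namespace Pool.Agent.Lib.MP_e6f638_al
end Pool.Agent.Lib.MP_e6f638_al

namespace Pool.Agent.Lib.MP_551055_al.LS
end Pool.Agent.Lib.MP_551055_al.LS

namespace Pool.Agent.Lib.MP_551055_al.EA

open Pool.Agent.Lib.MP_e6f638_al (EA gen par rho)

open Pool.Agent.Lib.MP_551055_al.LS (TreeAct)

open HNNExtension

/-- Lifting along an injective homomorphism and a conjugation. -/
theorem exists_lift {K P Q : Type} [Group K] [Group P] [Group Q] (f : K →* Q) (i : P →* Q)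
    (hi : Function.Injective i) (x : Q) (h : ∀ k, ∃ a, f k = x * i a * x⁻¹) :
    ∃ σ : K →* P, ∀ k, f k = x * i (σ k) * x⁻¹ := by
  choose a ha using h
  refine ⟨MonoidHom.mk' a fun y z => hi ?_, ha⟩
  have h1 : i (a (y * z)) = x⁻¹ * f (y * z) * x := by rw [ha]; group
  have h2 : i (a y) = x⁻¹ * f y * x := by rw [ha]; group
  have h3 : i (a z) = x⁻¹ * f z * x := by rw [ha]; group
  rw [map_mul, h1, h2, h3, map_mul]
  group

theorem mem_par_inj {S : Type} {l : S → S → ℕ} {u : S} {i : EA (Pool.Agent.Lib.MP_e6f638_al.del l u) →* EA l}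
    (hi : ∀ s, i (gen (Pool.Agent.Lib.MP_e6f638_al.del l u) s) = gen l s)
    (X : Set {x : S // x ≠ u}) (g : EA (Pool.Agent.Lib.MP_e6f638_al.del l u))
    (hg : g ∈ par (Pool.Agent.Lib.MP_e6f638_al.del l u) X) (Y : Set S) (hY : ∀ x ∈ X, (x : S) ∈ Y) :
    i g ∈ par l Y := by
  induction hg using Subgroup.closure_induction with
  | mem x hx =>
    obtain ⟨s, hs, rfl⟩ := hx
    rw [hi]
    exact Pool.Agent.Lib.MP_e6f638_al.gen_mem_par l (hY s hs)
  | one => rw [map_one]; exact one_mem _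
  | mul x y _ _ hx hy => rw [map_mul]; exact mul_mem hx hy
  | inv x _ hx => rw [map_inv]; exact inv_mem hx

/-- The tree of the splitting at `u`: the vertex stabilisers act on trees. -/
theorem om_of_w (S : Type) (l : S → S → ℕ) (hl : ∀ s t, l s t = l t s) (u : S)
    (hW' : ∀ D, Pool.Agent.Lib.MP_e6f638_al.IsDatOf l u D → D.W) (hu : ∃ s, s ≠ u ∧ l u s ≠ 1) :
    ∃ (V : Type) (_ : MulAction (EA l) V) (T : SimpleGraph V), TreeAct (EA l) V T ∧
      ∀ v : V, ∃ (V' : Type) (_ : MulAction (MulAction.stabilizer (EA l) v) V')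
        (T' : SimpleGraph V'), TreeAct (MulAction.stabilizer (EA l) v) V' T' ∧
        (∀ (w : V') (q : MulAction.stabilizer (EA l) v), q • w = w →
          rho l {u}ᶜ (q : EA l) = 1 → q = 1) ∧
        (∀ (w w' : V') (q : MulAction.stabilizer (EA l) v), T'.Adj w w' → q • w = w →
          q • w' = w' → rho l {c | c ≠ u ∧ l u c = 1} (q : EA l) = 1 → q = 1) := by
  obtain ⟨s₀, hs₀, hs₀'⟩ := hu
  obtain ⟨D, hD, i, hi, hinj, hE⟩ :=
    Pool.Agent.Lib.MP_e6f638_al.stI2 S l hl u ⟨⟨s₀, hs₀⟩, hs₀'⟩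
  have hW : D.W := hW' D hD
  obtain ⟨φ, hφ, hφi, -, -⟩ := Pool.Agent.Lib.MP_e6f638_al.stF _ D hW
  obtain ⟨ψ, hψ1, hψ2, hψi⟩ := D.exists_psi hφ hφi hE
  -- the left inverse
  have hθ : ∀ a, D.lam hφ hφi hE (ψ a) = a := by
    have h3 : (D.lam hφ hφi hE).comp ψ = MonoidHom.id (EA l) := by
      refine MonoidHom.eq_of_eqOn_dense hE.gen ?_
      rintro a (⟨g, rfl⟩ | rfl)
      · rw [MonoidHom.comp_apply, MonoidHom.id_apply]
        have h4 : ψ (i g) = D.psiG hφ hφi g := DFunLike.congr_fun hψ1 g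
        rw [h4, D.psiG_apply, map_mul, map_zpow, D.lam_T, D.lam_oQ, D.kQ_coe, D.toA_of, ← map_zpow,
          ← map_mul]
        congr 1
        simp only [Pool.Agent.Lib.MP_e6f638_al.Dat.kp]
        group
      · rw [MonoidHom.comp_apply, MonoidHom.id_apply, hψ2, Pool.Agent.Lib.MP_e6f638_al.Dat.psiv,
          map_mul, map_inv, D.lam_T, D.lam_oQ]
        simp only [Pool.Agent.Lib.MP_e6f638_al.Dat.xQ]
        rw [D.toA_x]
        group
    exact fun a => DFunLike.congr_fun h3 a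
  -- the tree of `Omega`
  obtain ⟨V, aV, T, hT, hst⟩ := Pool.Agent.Lib.MP_e6f638_al.stE1 D.hh.ker (D.phiQ hφ).range
    (D.phiQ hφ).range (D.tauQ hφ hφi)
  let a' : MulAction (EA l) V := MulAction.compHom V ψ
  have ha' : ∀ (g : EA l) (v : V), g • v = ψ g • v := fun _ _ => rfl
  refine ⟨V, a', T, ⟨hT.tree, fun g v w h => ?_, fun g v w h => ?_⟩, fun v => ?_⟩
  · rw [ha', ha']
    exact hT.adj _ _ _ h
  · rw [ha', ha']
    exact hT.inv _ _ _ h
  obtain ⟨ω, hω⟩ := hst v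
  obtain ⟨σ, hσ⟩ := exists_lift (ψ.comp (MulAction.stabilizer (EA l) v).subtype)
    (HNNExtension.of : D.hh.ker →* D.Om hφ hφi) (HNNExtension.of_injective _) ω (fun k => by
      obtain ⟨a, ha⟩ := hω (ψ k) k.2
      exact ⟨a, ha⟩)
  -- the elements of the stabiliser
  have hq : ∀ q : MulAction.stabilizer (EA l) v, (q : EA l) =
      D.lam hφ hφi hE ω * D.toA hE (σ q : D.Ah) * (D.lam hφ hφi hE ω)⁻¹ := by
    intro q
    have h1 := congrArg (D.lam hφ hφi hE) (hσ q)
    rw [MonoidHom.comp_apply, Subgroup.subtype_apply, hθ, map_mul, map_mul, map_inv] at h1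
    rw [h1, ← D.lam_oQ hφ hφi hE (σ q)]
  have hσ1 : ∀ q : MulAction.stabilizer (EA l) v, (σ q : D.Ah) = 1 → q = 1 := by
    intro q h
    have h1 := hq q
    rw [h, map_one, mul_one, mul_inv_cancel] at h1
    exact Subtype.ext h1
  obtain ⟨V', aV', T', hT', hv, he⟩ := exists_tree_hnn D.B (D.hh.ker.subtype.comp σ)
  have key : ∀ (q : MulAction.stabilizer (EA l) v) (x : D.Ah) (g : EA (Pool.Agent.Lib.MP_e6f638_al.del l u))
      (X : Set S), (σ q : D.Ah) = x * D.ofG g * x⁻¹ → i g ∈ par l X → rho l X (q : EA l) = 1 →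
      q = 1 := by
    intro q x g X h1 h2 h3
    refine hσ1 q ?_
    have h4 : g = 1 := by
      refine hinj ?_
      rw [map_one, ← Pool.Agent.Lib.MP_e6f638_al.rho_par l h2]
      rw [hq q, h1, map_mul, map_mul, map_mul, map_mul, map_inv, map_inv, map_mul, map_mul,
        map_inv, D.toA_of] at h3
      have h5 := congrArg (fun z => (rho l X (D.toA hE x))⁻¹ * ((rho l X (D.lam hφ hφi hE ω))⁻¹ * z *
        rho l X (D.lam hφ hφi hE ω)) * rho l X (D.toA hE x)) h3
      have h6 : (rho l X (D.toA hE x))⁻¹ * ((rho l X (D.lam hφ hφi hE ω))⁻¹ * 1 *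
        rho l X (D.lam hφ hφi hE ω)) * rho l X (D.toA hE x) = 1 := by group
      rw [h6] at h5
      rw [← h5]
      group
    rw [h1, h4, map_one]
    group
  refine ⟨V', aV', T', hT', fun w q hw h1 => ?_, fun w w' q hww hw hw' h1 => ?_⟩
  · obtain ⟨x, hx⟩ := hv w
    obtain ⟨g, hg⟩ := hx q hw
    refine key q x g {u}ᶜ hg ?_ h1
    refine mem_par_inj hi Set.univ g ?_ _ fun x _ => x.2
    rw [par, Set.image_univ, Pool.Agent.Lib.MP_e6f638_al.closure_gen]
    trivial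
  · obtain ⟨x, hx⟩ := he w w' hww
    obtain ⟨g, hg, hg'⟩ := hx q hw hw'
    refine key q x g _ hg' ?_ h1
    rw [hD.B] at hg
    exact mem_par_inj hi _ g hg _ fun x hx => ⟨x.2, hx⟩

end Pool.Agent.Lib.MP_551055_al.EA
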