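import Mathlib
import Pool.Agent.Lib.MP_551055_al.Trim.EA.HN
import Pool.Agent.Lib.MP_551055_al.Trim.EA.Stmts
import Pool.Agent.Lib.MP_551055_al.Trim.LS.Stmts
import Pool.Agent.Lib.MP_551055_al.Trim.X.MP_e6f638_al.I1
import Pool.Agent.Lib.MP_551055_al.Trim.X.MP_e6f638_al.Stmts

/-!
# The trees of one generator and of two generators
-/

set_option autoImplicit false

namespace Pool.Agent.Lib.MP_e6f638_al
end Pool.Agent.Lib.MP_e6f638_al

namespace Pool.Agent.Lib.MP_551055_al.LS
end Pool.Agent.Lib.MP_551055_al.LS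

namespace Pool.Agent.Lib.MP_551055_al.EA

open Pool.Agent.Lib.MP_e6f638_al (EA gen par rho liftEA liftEA_gen hom_ext_EA gen_rel rho_mem rho_not_mem)

open Pool.Agent.Lib.MP_551055_al.LS (TreeAct)

open HNNExtension

/-- Module Li. -/
theorem stLi : StLi := by
  classical
  intro S l _ s
  let H := HNNExtension Unit (⊥ : Subgroup Unit) ⊥ (MulEquiv.refl _)
  let F : EA l →* H := liftEA l (fun a => if a = s then HNNExtension.t else 1) (by
    intro a b
    by_cases ha : a = s
    · by_cases hb : b = s
      · simp [ha, hb]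
      · simp [hb]
    · simp [ha])
  let Θ : H →* EA l := HNNExtension.lift 1 (gen l s) (by intro a; simp)
  have hΘ : Θ.comp F = rho l {s} := by
    refine hom_ext_EA _ fun a => ?_
    rw [MonoidHom.comp_apply]
    by_cases ha : a = s
    · subst ha
      rw [rho_mem l (Set.mem_singleton a)]
      have h1 : F (gen l a) = HNNExtension.t := by simp [F, liftEA_gen]
      rw [h1]
      exact HNNExtension.lift_t _ _ _
    · rw [rho_not_mem l (by simpa using ha)]
      simp [F, liftEA_gen, ha]
  obtain ⟨V, a, T, hT, hv, -⟩ := exists_tree_hnn (⊥ : Subgroup Unit) F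
  refine ⟨V, a, T, hT, fun v g hg => ?_⟩
  obtain ⟨x, hx⟩ := hv v
  obtain ⟨y, hy⟩ := hx g hg
  have h1 : F g = 1 := by
    rw [hy]
    have h2 : y = 1 := rfl
    rw [h2, map_one]
    group
  rw [← hΘ, MonoidHom.comp_apply, h1, map_one]

/-- Module Pr. -/
theorem stPr : StPr := by
  classical
  intro S l hl s t hst
  let B : Subgroup (Multiplicative ℤ) := Subgroup.zpowers (Multiplicative.ofAdd (l s t : ℤ))
  let H := HNNExtension (Multiplicative ℤ) B B (MulEquiv.refl _)
  let x : H := HNNExtension.of (Multiplicative.ofAdd 1)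
  let τ : H := HNNExtension.t
  have hx : ∀ n : ℤ, x ^ n = HNNExtension.of (Multiplicative.ofAdd n) := by
    intro n
    rw [← map_zpow, ← ofAdd_zsmul]
    simp
  have hxτ : τ * x ^ l s t = x ^ l s t * τ := by
    have h1 := HNNExtension.t_mul_of (φ := MulEquiv.refl B)
      ⟨Multiplicative.ofAdd (l s t : ℤ), Subgroup.mem_zpowers _⟩
    have h2 := hx (l s t : ℤ)
    rw [zpow_natCast] at h2
    rw [h2]
    exact h1
  have hrel : ((x * τ⁻¹) * τ) ^ l s t = (τ * (x * τ⁻¹)) ^ l s t := by
    rw [inv_mul_cancel_right, ← mul_assoc, conj_pow, hxτ, mul_inv_cancel_right]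
  let F : EA l →* H := liftEA l (fun a => if a = s then x * τ⁻¹ else if a = t then τ else 1) (by
    intro a b
    by_cases ha : a = s
    · by_cases hb : b = s
      · simp [ha, hb]
      · by_cases hb' : b = t
        · subst hb'
          simp only [ha, if_true, if_neg hb]
          exact hrel
        · simp [hb, hb']
    · by_cases ha' : a = t
      · by_cases hb : b = s
        · subst ha'
          simp only [hb, if_true, if_neg ha]
          rw [hl a s]
          exact hrel.symm
        · by_cases hb' : b = t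
          · simp [ha', hb']
          · simp [hb, hb']
      · simp [ha, ha'])
  have hFs : F (gen l s) = x * τ⁻¹ := by simp [F, liftEA_gen]
  have hFt : F (gen l t) = τ := by simp [F, liftEA_gen, hst.symm]
  have hFn : ∀ a, a ≠ s → a ≠ t → F (gen l a) = 1 := by
    intro a h1 h2
    simp [F, liftEA_gen, h1, h2]
  have hcomm : ∀ n : ℤ, gen l t * ((gen l s * gen l t) ^ l s t) ^ n =
      ((gen l s * gen l t) ^ l s t) ^ n * gen l t := by
    have h1 : gen l t * (gen l s * gen l t) ^ l s t = (gen l s * gen l t) ^ l s t * gen l t := by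
      have h2 : (gen l s * gen l t) ^ l s t = (gen l t * gen l s) ^ l s t := gen_rel l s t
      have h3 : (gen l t * (gen l s * gen l t) * (gen l t)⁻¹) ^ l s t =
          gen l t * (gen l s * gen l t) ^ l s t * (gen l t)⁻¹ := conj_pow
      have h4 : gen l t * (gen l s * gen l t) * (gen l t)⁻¹ = gen l t * gen l s := by group
      rw [h4, ← h2] at h3
      rw [eq_mul_inv_iff_mul_eq] at h3
      exact h3.symm
    intro n
    exact Commute.zpow_right (show Commute (gen l t) _ from h1) n
  let Θ : H →* EA l := HNNExtension.lift (zpowersHom (EA l) (gen l s * gen l t)) (gen l t) (by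
    rintro ⟨_, n, rfl⟩
    have h1 : zpowersHom (EA l) (gen l s * gen l t) (Multiplicative.ofAdd (l s t : ℤ) ^ n) =
        ((gen l s * gen l t) ^ l s t) ^ n := by
      rw [map_zpow, zpowersHom_apply, toAdd_ofAdd, zpow_natCast]
    change gen l t * zpowersHom (EA l) (gen l s * gen l t) (Multiplicative.ofAdd (l s t : ℤ) ^ n) =
      zpowersHom (EA l) (gen l s * gen l t) (Multiplicative.ofAdd (l s t : ℤ) ^ n) * gen l t
    rw [h1]
    exact hcomm n)
  have hΘx : ∀ a, Θ (HNNExtension.of a) = (gen l s * gen l t) ^ (Multiplicative.toAdd a) := by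
    intro a
    exact (HNNExtension.lift_of _ _ _ a).trans (zpowersHom_apply _ _ _)
  have hΘτ : Θ τ = gen l t := HNNExtension.lift_t _ _ _
  have hΘ : Θ.comp F = rho l {s, t} := by
    refine hom_ext_EA _ fun a => ?_
    rw [MonoidHom.comp_apply]
    by_cases ha : a = s
    · subst ha
      rw [rho_mem l (by simp), hFs, map_mul, map_inv, hΘτ, hΘx]
      simp
    · by_cases ha' : a = t
      · subst ha'
        rw [rho_mem l (by simp), hFt, hΘτ]
      · rw [rho_not_mem l (by simp [ha, ha']), hFn a ha ha', map_one]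
  obtain ⟨V, a, T, hT, hv, -⟩ := exists_tree_hnn B F
  refine ⟨V, a, T, hT, fun v => ?_⟩
  obtain ⟨z, hz⟩ := hv v
  refine ⟨Θ z, fun g hg => ?_⟩
  obtain ⟨y, hy⟩ := hz g hg
  refine ⟨Multiplicative.toAdd y, ?_⟩
  rw [← hΘ, MonoidHom.comp_apply, hy, map_mul, map_mul, map_inv, hΘx]

end Pool.Agent.Lib.MP_551055_al.EA
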