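import Mathlib
import Pool.Agent.Lib.MP_551055_al.Trim.EA.Stmts
import Pool.Agent.Lib.MP_551055_al.Trim.LS.Main
import Pool.Agent.Lib.MP_551055_al.Trim.LS.PStmts
import Pool.Agent.Lib.MP_551055_al.Trim.LS.Stmts
import Pool.Agent.Lib.MP_551055_al.Trim.MT.K1
import Pool.Agent.Lib.MP_551055_al.Trim.PT.Clo
import Pool.Agent.Lib.MP_551055_al.Trim.T4.Alg
import Pool.Agent.Lib.MP_551055_al.Trim.T4.GlDim
import Pool.Agent.Lib.MP_551055_al.Trim.T6.Nil
import Pool.Agent.Lib.MP_551055_al.Trim.T6.OfTwo
import Pool.Agent.Lib.MP_551055_al.Trim.W17.Main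
import Pool.Agent.Lib.MP_551055_al.Trim.W17.StF

/-!
# Groups of small tree dimension
-/

set_option autoImplicit false

namespace Pool.Agent.Lib.MP_551055_al
end Pool.Agent.Lib.MP_551055_al

namespace Pool.Agent.Lib.MP_551055_al.LS
end Pool.Agent.Lib.MP_551055_al.LS

namespace Pool.Agent.Lib.MP_551055_al.W17
end Pool.Agent.Lib.MP_551055_al.W17

namespace Pool.Agent.Lib.MP_551055_al.EA

open Pool.Agent.Lib.MP_551055_al

open Pool.Agent.Lib.MP_551055_al.LS (TreeAct)

open Pool.Agent.Lib.MP_551055_al.W17 (SF)

/-! ## Closure properties -/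

theorem TD.succ {n : ℕ} {G : Type} [Group G] (h : TD n G) : TD (n + 1) G := by
  induction h with
  | trivial n G hG => exact TD.trivial _ G hG
  | tree n G V T hT _ _ ihv ihe => exact TD.tree (n + 1) G V T hT ihv ihe

theorem TD.mono {m n : ℕ} (hmn : m ≤ n) {G : Type} [Group G] (h : TD m G) : TD n G := by
  induction hmn with
  | refl => exact h
  | step _ ih => exact ih.succ

theorem TD.of_injective {n : ℕ} {G : Type} [Group G] (h : TD n G) :
    ∀ (H : Type) [Group H] (f : H →* G), Function.Injective f → TD n H := by
  induction h with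
  | trivial n G hG =>
    exact fun H _ f hf => TD.trivial n H ⟨fun x y => hf (Subsingleton.elim _ _)⟩
  | tree n G V T hT _ _ ihv ihe =>
    intro H _ f hf
    let _ : MulAction H V := MulAction.compHom V f
    refine TD.tree n H V T (PT.tcomp hT f fun _ _ => rfl) (fun v => ?_) fun u v huv => ?_
    · refine ihv v (MulAction.stabilizer H v) ((f.comp (MulAction.stabilizer H v).subtype).codRestrict
        (MulAction.stabilizer G v) fun γ => γ.2) ?_
      intro x y hxy
      exact Subtype.ext (hf (congrArg (fun z : MulAction.stabilizer G v => (z : G)) hxy))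
    · refine ihe u v huv (MulAction.stabilizer H (u, v))
        ((f.comp (MulAction.stabilizer H (u, v)).subtype).codRestrict
        (MulAction.stabilizer G (u, v)) fun γ => γ.2) ?_
      intro x y hxy
      exact Subtype.ext (hf (congrArg (fun z : MulAction.stabilizer G (u, v) => (z : G)) hxy))

/-- Extensions. -/
theorem TD.ext {j k : ℕ} {G Q : Type} [Group G] [Group Q] (f : G →* Q) (hj : TD j f.ker)
    (hk : TD k Q) : TD (j + k) G := by
  suffices h : ∀ (G : Type) [Group G] (f : G →* Q), TD j f.ker → TD (j + k) G from h G f hj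
  clear hj f
  induction hk with
  | trivial k Q hQ =>
    intro G _ f hj
    refine TD.mono (Nat.le_add_right j k) (hj.of_injective G ((MonoidHom.id G).codRestrict f.ker
      fun g => Subsingleton.elim _ _) fun x y hxy => ?_)
    exact congrArg (fun z : f.ker => (z : G)) hxy
  | tree k Q V T hT _ _ ihv ihe =>
    intro G _ f hj
    let _ : MulAction G V := MulAction.compHom V f
    refine TD.tree (j + k) G V T (PT.tcomp hT f fun _ _ => rfl) (fun v => ?_) fun u v huv => ?_
    · refine ihv v (MulAction.stabilizer G v) ((f.comp (MulAction.stabilizer G v).subtype).codRestrict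
        (MulAction.stabilizer Q v) fun γ => γ.2) (hj.of_injective _
          (((MulAction.stabilizer G v).subtype.comp (Subgroup.subtype _)).codRestrict f.ker
            fun γ => ?_) ?_)
      · exact congrArg (fun z : MulAction.stabilizer Q v => (z : Q)) γ.2
      · intro x y hxy
        exact Subtype.ext (Subtype.ext (congrArg (fun z : f.ker => (z : G)) hxy))
    · refine ihe u v huv (MulAction.stabilizer G (u, v))
        ((f.comp (MulAction.stabilizer G (u, v)).subtype).codRestrict
        (MulAction.stabilizer Q (u, v)) fun γ => γ.2) (hj.of_injective _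
          (((MulAction.stabilizer G (u, v)).subtype.comp (Subgroup.subtype _)).codRestrict f.ker
            fun γ => ?_) ?_)
      · exact congrArg (fun z : MulAction.stabilizer Q (u, v) => (z : Q)) γ.2
      · intro x y hxy
        exact Subtype.ext (Subtype.ext (congrArg (fun z : f.ker => (z : G)) hxy))

/-! ## Groups of tree dimension at most three are good -/

theorem TD.glD {n : ℕ} {G : Type} [Group G] (h : TD n G) :
    ∀ (k : Type) [Field k], T4.GlD k G n := by
  induction h with
  | trivial n G hG => exact fun k _ => (T4.GlD.trivial hG).mono (Nat.zero_le n)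
  | tree n G V T hT _ _ ihv ihe =>
    exact fun k _ => T4.GlD.tree hT n (fun v => ihv v k) fun u v huv => ihe u v huv k

theorem TD.two {G : Type} [Group G] (h : TD 2 G) : T4.TWO.{0, 0} G :=
  T4.TWO.of_gl fun k _ => h.glD k

theorem TD.lps {G : Type} [Group G] (h : TD 2 G) : T6.StLPS G := T6.StLPS.of_two h.two

theorem sf_trivial (G : Type) [Group G] (h : Subsingleton G) : SF G := fun m =>
  LS.lsPPoly G (LS.PolyZ.triv G h) m

theorem stabilizer_unit {G V : Type} [Group G] [MulAction G V] (v w : Unit → V) :
    MulAction.stabilizer G (v, w) = MulAction.stabilizer G (v (), w ()) := by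
  ext g
  constructor
  · intro h
    have h' : g • (v, w) = (v, w) := h
    have h1 : g • v = v := congrArg Prod.fst h'
    have h2 : g • w = w := congrArg Prod.snd h'
    exact Prod.ext (congrFun h1 ()) (congrFun h2 ())
  · intro h
    have h' : g • (v (), w ()) = (v (), w ()) := h
    have h1 : g • v () = v () := congrArg Prod.fst h'
    have h2 : g • w () = w () := congrArg Prod.snd h'
    exact Prod.ext (funext fun _ => h1) (funext fun _ => h2)

theorem stabilizer_diag {G V : Type} [Group G] [MulAction G V] (v : V) :
    MulAction.stabilizer G (v, v) = MulAction.stabilizer G v := by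
  ext g
  constructor
  · intro h
    have h' : g • (v, v) = (v, v) := h
    exact congrArg Prod.fst h'
  · intro h
    have h' : g • v = v := h
    exact Prod.ext h' h'

/-- One tree. -/
theorem sf_of_tree {G : Type} [Group G] {V : Type} [MulAction G V] {T : SimpleGraph V}
    (hT : TreeAct G V T) (hv : ∀ v : V, SF (MulAction.stabilizer G v))
    (he : ∀ u v : V, T.Adj u v → SF (MulAction.stabilizer G (u, v)) ∧
      T6.StLPS (MulAction.stabilizer G (u, v))) : SF G := by
  refine W17.t G Unit (fun _ => V) (fun _ => T) (fun _ => hT) (fun v w hvw => ?_)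
    fun v w hvw hne => ?_
  · rw [stabilizer_unit]
    rcases hvw () with h | h
    · rw [← h, stabilizer_diag]
      exact hv _
    · exact (he _ _ h).1
  · rw [stabilizer_unit]
    rcases hvw () with h | h
    · obtain ⟨i, hi⟩ := hne
      exact absurd h hi
    · exact (he _ _ h).2

/-- Groups of tree dimension at most three. -/
theorem TD.sf {n : ℕ} (hn : n ≤ 3) {G : Type} [Group G] (h : TD n G) : SF G := by
  induction h with
  | trivial n G hG => exact sf_trivial G hG
  | tree n G V T hT _ he ihv ihe =>
    exact sf_of_tree hT (fun v => ihv v hn) fun u v huv =>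
      ⟨ihe u v huv (by omega), ((he u v huv).mono (by omega)).lps⟩

/-- Module TD. -/
theorem stTD : StTD := fun _ _ h => ⟨h.sf (by norm_num), h.lps⟩

/-- Finitely many trees: the stabilisers of the tuples of vertices have tree dimension at most
two. -/
theorem sf_of_trees (G : Type) [Group G] (I : Type) [Finite I] (V : I → Type)
    [∀ i, MulAction G (V i)] (T : ∀ i, SimpleGraph (V i)) (hT : ∀ i, TreeAct G (V i) (T i))
    (h : ∀ v : ∀ i, V i, TD 2 (MulAction.stabilizer G v)) : SF G := by
  have key : ∀ v w : ∀ i, V i, TD 2 (MulAction.stabilizer G (v, w)) := by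
    intro v w
    refine (h v).of_injective _ ((MulAction.stabilizer G (v, w)).subtype.codRestrict
      (MulAction.stabilizer G v) fun γ => congrArg Prod.fst (γ.2 : (γ : G) • (v, w) = (v, w))) ?_
    intro x y hxy
    exact Subtype.ext (congrArg (fun z : MulAction.stabilizer G v => (z : G)) hxy)
  exact W17.t G I V T hT (fun v w _ => (stTD _ (key v w)).1) fun v w _ _ => (stTD _ (key v w)).2

/-- Finitely many trees: the elements which fix a tuple of vertices form a group of tree dimension
at most two. -/
theorem sf_of_trees' (G : Type) [Group G] (I : Type) [Finite I] (V : I → Type)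
    [∀ i, MulAction G (V i)] (T : ∀ i, SimpleGraph (V i)) (hT : ∀ i, TreeAct G (V i) (T i))
    (h : ∀ (v : ∀ i, V i) (A : Subgroup G), (∀ a ∈ A, ∀ i, a • v i = v i) → TD 2 A) : SF G :=
  sf_of_trees G I V T hT fun v => h v _ fun a ha i => congrFun (ha : a • v = v) i

end Pool.Agent.Lib.MP_551055_al.EA
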