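import Mathlib
import Pool.Agent.Lib.MP_551055_al.Trim.EA.Stmts
import Pool.Agent.Lib.MP_551055_al.Trim.EA.TD
import Pool.Agent.Lib.MP_551055_al.Trim.LS.Stmts
import Pool.Agent.Lib.MP_551055_al.Trim.MT.K1
import Pool.Agent.Lib.MP_551055_al.Trim.RI.Stmts
import Pool.Agent.Lib.MP_551055_al.Trim.T4.GlDim
import Pool.Agent.Lib.MP_551055_al.Trim.W17.Peel
import Pool.Agent.Lib.MP_551055_al.Trim.X.MP_e6f638_al.I1
import Pool.Agent.Lib.MP_551055_al.Trim.X.MP_e6f638_al.Stmts

/-!
# Groups which fix vertices of all the trees of an even Artin group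
-/

set_option autoImplicit false

namespace Pool.Agent.Lib.MP_e6f638_al
end Pool.Agent.Lib.MP_e6f638_al

namespace Pool.Agent.Lib.MP_551055_al.LS
end Pool.Agent.Lib.MP_551055_al.LS

namespace Pool.Agent.Lib.MP_551055_al.EA

open Pool.Agent.Lib.MP_e6f638_al (EA gen par rho retr incl liftEA liftEA_gen hom_ext_EA gen_rel rho_mem rho_not_mem rho_par rho_mem_par gen_mem_par closure_gen incl_gen retr_mem retr_not_mem retr_incl)

open Pool.Agent.Lib.MP_551055_al.LS (TreeAct)

section

variable {S : Type} {l : S → S → ℕ}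

/-! ## Retractions -/

theorem rho_rho {X Y : Set S} (h : Y ⊆ X) (g : EA l) : rho l Y (rho l X g) = rho l Y g := by
  have : (rho l Y).comp (rho l X) = rho l Y := by
    refine hom_ext_EA _ fun s => ?_
    rw [MonoidHom.comp_apply]
    by_cases hs : s ∈ X
    · rw [rho_mem l hs]
    · rw [rho_not_mem l hs, rho_not_mem l fun h' => hs (h h'), map_one]
  exact DFunLike.congr_fun this g

theorem rho_empty (g : EA l) : rho l ∅ g = 1 := by
  have : rho l ∅ = 1 := hom_ext_EA _ fun s => rho_not_mem l (by simp)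
  rw [this]
  rfl

/-- The retractions onto commuting standard subgroups. -/
theorem rho_union {X Y : Set S} (hd : Disjoint X Y)
    (h : ∀ x ∈ X, ∀ y ∈ Y, l x y = 1) (g : EA l) :
    rho l (X ∪ Y) g = rho l X g * rho l Y g := by
  have hc : ∀ x ∈ par l X, ∀ y ∈ par l Y, x * y = y * x := by
    intro x hx y hy
    induction hx using Subgroup.closure_induction with
    | mem x hx =>
      obtain ⟨s, hs, rfl⟩ := hx
      induction hy using Subgroup.closure_induction with
      | mem y hy =>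
        obtain ⟨t, ht, rfl⟩ := hy
        have h1 := gen_rel l s t
        rw [h s hs t ht, pow_one, pow_one] at h1
        exact h1
      | one => simp
      | mul y z _ _ hy hz => exact (Commute.mul_right (show Commute (gen l s) y from hy) hz)
      | inv y _ hy => exact (Commute.inv_right (show Commute (gen l s) y from hy))
    | one => simp
    | mul x z _ _ hx hz => exact (Commute.mul_left (show Commute x y from hx) hz)
    | inv x _ hx => exact (Commute.inv_left (show Commute x y from hx))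
  have hg : g ∈ Subgroup.closure (Set.range (gen l)) := by rw [closure_gen]; trivial
  induction hg using Subgroup.closure_induction with
  | mem x hx =>
    obtain ⟨s, rfl⟩ := hx
    by_cases hX : s ∈ X
    · rw [rho_mem l (Or.inl hX), rho_mem l hX,
        rho_not_mem l fun hY => Set.disjoint_left.1 hd hX hY, mul_one]
    · by_cases hY : s ∈ Y
      · rw [rho_mem l (Or.inr hY), rho_not_mem l hX, rho_mem l hY, one_mul]
      · rw [rho_not_mem l (by simp [hX, hY]), rho_not_mem l hX, rho_not_mem l hY, one_mul]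
  | one => simp
  | mul x y _ _ hx hy =>
    rw [map_mul, hx, hy, map_mul, map_mul]
    have h1 := hc (rho l X y) (rho_mem_par l X y) (rho l Y x) (rho_mem_par l Y x)
    calc rho l X x * rho l Y x * (rho l X y * rho l Y y)
        = rho l X x * (rho l Y x * rho l X y) * rho l Y y := by group
      _ = rho l X x * (rho l X y * rho l Y x) * rho l Y y := by rw [h1]
      _ = rho l X x * rho l X y * (rho l Y x * rho l Y y) := by group
  | inv x _ hx =>
    rw [map_inv, hx, map_inv, map_inv, mul_inv_rev]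
    exact (hc _ (inv_mem (rho_mem_par l X x)) _ (inv_mem (rho_mem_par l Y x))).symm

/-- The exponent of `s`. -/
theorem wt_mul_pow (s t : S) (hst : s ≠ t) (x : EA l) (n : ℤ)
    (h : rho l {s} (x * (gen l s * gen l t) ^ n * x⁻¹) = 1) : n = 0 := by
  classical
  have h1 : Pool.Agent.Lib.MP_e6f638_al.wt l (fun a => if a = s then 1 else 0)
      (rho l {s} (x * (gen l s * gen l t) ^ n * x⁻¹)) = Multiplicative.ofAdd n := by
    have h2 : rho l {s} (gen l t) = 1 := rho_not_mem l (by simpa using hst.symm)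
    have h3 : rho l {s} (gen l s) = gen l s := rho_mem l (Set.mem_singleton s)
    have h4 : rho l {s} (x * (gen l s * gen l t) ^ n * x⁻¹) =
        rho l {s} x * gen l s ^ n * (rho l {s} x)⁻¹ := by
      rw [map_mul, map_mul, map_inv, map_zpow, map_mul, h2, h3, mul_one]
    rw [h4, map_mul, map_mul, map_inv, map_zpow, Pool.Agent.Lib.MP_e6f638_al.wt_gen, if_pos rfl,
      ← ofAdd_zsmul, mul_comm, inv_mul_cancel_left]
    simp
  rw [h, map_one] at h1
  exact (ofAdd_eq_one.1 h1.symm)

/-! ## Elliptic subgroups -/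

variable (l)

/-- Splitting generators of `X`: `u` is in no triple with labels `4, 4, 2` in `X`, or at most two
labels at `u` are `4` and these neighbours commute with all elements which commute with `u`. -/
def Spl (X : Set S) (u : S) : Prop :=
  (∀ s ∈ X, ∀ t ∈ X, s ≠ u → t ≠ u → s ≠ t →
    ¬ (l u s = 2 ∧ l u t = 2 ∧ l s t = 1) ∧ ¬ (l s u = 2 ∧ l s t = 2 ∧ l u t = 1)) ∨
  ((∀ c ∈ X, ∀ x ∈ X, c ≠ u → x ≠ u → l u c = 1 → l u x = 2 → l c x = 1) ∧
    ∃ s t : S, ∀ x ∈ X, x ≠ u → l u x = 2 → x = s ∨ x = t)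

/-- The depth of sets of generators. -/
inductive Dpt : ℕ → Set S → Prop
  | empty (k : ℕ) : Dpt k ∅
  | block (k : ℕ) (X Y : Set S) : X.Finite → X.ncard ≤ 2 → (∀ x ∈ X, ∀ y ∈ Y, l x y = 1) →
      Dpt k Y → Dpt k (X ∪ Y)
  | step (k : ℕ) (X : Set S) (u : S) : u ∈ X → Spl l X u → Dpt (k + 1) (X \ {u}) →
      Dpt k {c | c ∈ X ∧ c ≠ u ∧ l u c = 1} → Dpt (k + 1) X
  | infinite (k : ℕ) (X : Set S) (s t : S) : s ∈ X → t ∈ X → s ≠ t → l s t = 0 →
      Dpt k (X \ {s}) → Dpt k (X \ {t}) → Dpt k X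

/-- The trees. -/
abbrev Ix (F : Set S) : Type := F ⊕ (F × F) ⊕ (Set F × F × F) ⊕ (Set F × F)

/-- The condition of a generator. -/
def PLi (s : S) (H : Subgroup (EA l)) : Prop := ∀ h ∈ H, rho l {s} h = 1

/-- The condition of two generators. -/
def PPr (s t : S) (H : Subgroup (EA l)) : Prop :=
  s ≠ t → ∃ x : EA l, ∀ h ∈ H, ∃ n : ℤ, rho l {s, t} h = x * (gen l s * gen l t) ^ n * x⁻¹

/-- The condition of an infinite label. -/
def PAm (U : Set S) (s t : S) (H : Subgroup (EA l)) : Prop :=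
  s ∈ U → t ∈ U → s ≠ t → l s t = 0 → ∃ x : EA l,
    (∀ h ∈ H, x⁻¹ * rho l U h * x ∈ par l (U \ {s})) ∨
    (∀ h ∈ H, x⁻¹ * rho l U h * x ∈ par l (U \ {t}))

/-- The condition of the splitting at `u`. -/
def POm (U : Set S) (u : S) (H : Subgroup (EA l)) : Prop :=
  u ∈ U → Spl l U u → (∃ s ∈ U, s ≠ u ∧ l u s ≠ 1) →
    ∃ (V' : Type) (_ : MulAction (H.map (rho l U)) V') (T' : SimpleGraph V'),
      TreeAct (H.map (rho l U)) V' T' ∧
      (∀ (w : V') (q : H.map (rho l U)), q • w = w → rho l (U \ {u}) (q : EA l) = 1 → q = 1) ∧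
      (∀ (w w' : V') (q : H.map (rho l U)), T'.Adj w w' → q • w = w → q • w' = w' →
        rho l {c | c ∈ U ∧ c ≠ u ∧ l u c = 1} (q : EA l) = 1 → q = 1)

/-- The subgroup fixes vertices of all trees. -/
structure Ell (F : Set S) (H : Subgroup (EA l)) : Prop where
  li : ∀ s ∈ F, PLi l s H
  pr : ∀ s ∈ F, ∀ t ∈ F, PPr l s t H
  am : ∀ U ⊆ F, ∀ s t, PAm l U s t H
  om : ∀ U ⊆ F, ∀ u, POm l U u H

variable {l}

/-- Tree dimension and retractions. -/
theorem td_embed {n : ℕ} {H : Subgroup (EA l)} {Y : Set S} (h : TD n (H.map (rho l Y))) {K : Type}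
    [Group K] (j : K →* EA l) (hj : ∀ k, ∃ a ∈ H, rho l Y (j k) = rho l Y a)
    (hi : ∀ k, rho l Y (j k) = 1 → k = 1) : TD n K := by
  refine h.of_injective K (((rho l Y).comp j).codRestrict _ fun k => ?_) ?_
  · obtain ⟨a, ha, hk⟩ := hj k
    exact ⟨a, ha, hk.symm⟩
  · refine (injective_iff_map_eq_one _).2 fun k hk => hi k ?_
    exact congrArg (fun z : H.map (rho l Y) => (z : EA l)) hk

theorem map_rho_aux {H : Subgroup (EA l)} {X Y : Set S} (h : Y ⊆ X) (q : H.map (rho l X)) :
    ∃ a ∈ H, rho l Y (q : EA l) = rho l Y a := by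
  obtain ⟨a, ha, hq⟩ := q.2
  exact ⟨a, ha, by rw [← hq, rho_rho h]⟩

/-- Pairs of generators. -/
theorem Ell.two {F : Set S} {H : Subgroup (EA l)} (hE : Ell l F H) {X : Set S} (hX : X ⊆ F)
    (hf : X.Finite) (h2 : X.ncard ≤ 2) : ∀ h ∈ H, rho l X h = 1 := by
  intro h hh
  have h3 : X.ncard = 0 ∨ X.ncard = 1 ∨ X.ncard = 2 := by omega
  rcases h3 with h3 | h3 | h3
  · rw [(Set.ncard_eq_zero hf).1 h3, rho_empty]
  · obtain ⟨s, rfl⟩ := Set.ncard_eq_one.1 h3
    exact hE.li s (hX rfl) h hh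
  · obtain ⟨s, t, hst, rfl⟩ := Set.ncard_eq_two.1 h3
    obtain ⟨x, hx⟩ := hE.pr s (hX (by simp)) t (hX (by simp)) hst
    obtain ⟨n, hn⟩ := hx h hh
    have h4 : rho l {s} (rho l {s, t} h) = 1 := by
      rw [rho_rho (by simp)]
      exact hE.li s (hX (by simp)) h hh
    rw [hn] at h4
    rw [hn, wt_mul_pow s t hst x n h4, zpow_zero, mul_one, mul_inv_cancel]

/-- Blocks. -/
theorem Ell.block {F : Set S} {H : Subgroup (EA l)} (hE : Ell l F H)
    {X Y : Set S} (hX : X ⊆ F) (hf : X.Finite) (h2 : X.ncard ≤ 2)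
    (hc : ∀ x ∈ X, ∀ y ∈ Y, l x y = 1) {n : ℕ} (h : TD n (H.map (rho l Y))) :
    TD n (H.map (rho l (X ∪ Y))) := by
  refine td_embed h (H.map (rho l (X ∪ Y))).subtype
    (fun q => map_rho_aux Set.subset_union_right q) fun q hq => ?_
  obtain ⟨_, a, ha, rfl⟩ := q
  have h1 : X ∪ Y = (X \ Y) ∪ Y := by rw [Set.sdiff_union_self]
  have h3 : rho l (X ∪ Y) a = rho l (X \ Y) a * rho l Y a := by
    rw [h1]
    exact rho_union Set.disjoint_sdiff_left (fun x hx y hy => hc x hx.1 y hy) a
  have h4 : rho l (X \ Y) a = 1 := hE.two (Set.sdiff_subset.trans hX) hf.sdiff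
    ((Set.ncard_le_ncard Set.sdiff_subset hf).trans h2) a ha
  have h5 : rho l Y a = 1 := by
    have h6 : rho l Y (rho l (X ∪ Y) a) = 1 := hq
    rwa [rho_rho Set.subset_union_right] at h6
  apply Subtype.ext
  change rho l (X ∪ Y) a = 1
  rw [h3, h4, h5, mul_one]

/-- The recursion. -/
theorem Ell.td {F : Set S} {H : Subgroup (EA l)} (hE : Ell l F H)
    {k : ℕ} {X : Set S} (hD : Dpt l k X) : X ⊆ F → TD k (H.map (rho l X)) := by
  induction hD with
  | empty k =>
    intro _
    refine TD.trivial k _ ⟨fun a b => ?_⟩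
    obtain ⟨a, x, _, rfl⟩ := a
    obtain ⟨b, y, _, rfl⟩ := b
    apply Subtype.ext
    change rho l ∅ x = rho l ∅ y
    rw [rho_empty, rho_empty]
  | block k X Y hf h2 hc _ ih =>
    intro hX
    exact hE.block (Set.subset_union_left.trans hX) hf h2 hc
      (ih (Set.subset_union_right.trans hX))
  | step k X u hu hspl _ _ ih1 ih2 =>
    intro hX
    by_cases hs : ∃ s ∈ X, s ≠ u ∧ l u s ≠ 1
    · obtain ⟨V', _, T', hT', hv, he⟩ := hE.om X hX u hu hspl hs
      refine TD.tree k _ V' T' hT' (fun w => ?_) fun w w' hww => ?_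
      · refine td_embed (ih1 (Set.sdiff_subset.trans hX)) ((H.map (rho l X)).subtype.comp
          (Subgroup.subtype _)) (fun q => map_rho_aux Set.sdiff_subset (q : H.map (rho l X)))
          fun q hq => ?_
        exact Subtype.ext (hv w q q.2 hq)
      · refine td_embed (ih2 ((Set.sep_subset _ _).trans hX)) ((H.map (rho l X)).subtype.comp
          (Subgroup.subtype _)) (fun q => map_rho_aux (Set.sep_subset _ _) (q : H.map (rho l X)))
          fun q hq => ?_
        exact Subtype.ext (he w w' q hww (congrArg Prod.fst q.2) (congrArg Prod.snd q.2) hq)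
    · push Not at hs
      have h1 : X = {u} ∪ (X \ {u}) := by
        rw [Set.union_sdiff_cancel (Set.singleton_subset_iff.2 hu)]
      rw [h1]
      refine hE.block (Set.singleton_subset_iff.2 (hX hu)) (Set.finite_singleton u) (by simp)
        ?_ (ih1 (Set.sdiff_subset.trans hX))
      intro x hx y hy
      rw [Set.mem_singleton_iff.1 hx]
      exact hs y hy.1 fun h => hy.2 h
  | infinite k X s t hs ht hst h0 _ _ ih1 ih2 =>
    intro hX
    have key : ∀ Y : Set S, Y ⊆ X → TD k (H.map (rho l Y)) →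
        (∃ x : EA l, ∀ h ∈ H, x⁻¹ * rho l X h * x ∈ par l Y) → TD k (H.map (rho l X)) := by
      rintro Y hYX hY ⟨x, hx⟩
      refine td_embed hY (H.map (rho l X)).subtype (fun q => map_rho_aux hYX q) fun q hq => ?_
      obtain ⟨_, a, ha, rfl⟩ := q
      have h1 : rho l Y (rho l X a) = 1 := hq
      have h2 := rho_par l (hx a ha)
      rw [map_mul, map_mul, h1, mul_one, ← map_mul, inv_mul_cancel, map_one] at h2
      apply Subtype.ext
      change rho l X a = 1
      have h3 : x * (x⁻¹ * rho l X a * x) * x⁻¹ = rho l X a := by group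
      rw [← h3, ← h2]
      group
    obtain ⟨x, hx | hx⟩ := hE.am X hX s t hs ht hst h0
    · exact key _ Set.sdiff_subset (ih1 (Set.sdiff_subset.trans hX)) ⟨x, hx⟩
    · exact key _ Set.sdiff_subset (ih2 (Set.sdiff_subset.trans hX)) ⟨x, hx⟩

end

end Pool.Agent.Lib.MP_551055_al.EA
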