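import Mathlib
import Pool.Agent.Lib.MP_551055_al.Trim.EA.Am
import Pool.Agent.Lib.MP_551055_al.Trim.EA.HN
import Pool.Agent.Lib.MP_551055_al.Trim.EA.LocW
import Pool.Agent.Lib.MP_551055_al.Trim.EA.Om
import Pool.Agent.Lib.MP_551055_al.Trim.EA.Pr
import Pool.Agent.Lib.MP_551055_al.Trim.EA.Rec
import Pool.Agent.Lib.MP_551055_al.Trim.EA.Stmts
import Pool.Agent.Lib.MP_551055_al.Trim.EA.TD
import Pool.Agent.Lib.MP_551055_al.Trim.LS.PStmts
import Pool.Agent.Lib.MP_551055_al.Trim.LS.Stmts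
import Pool.Agent.Lib.MP_551055_al.Trim.MT.K1
import Pool.Agent.Lib.MP_551055_al.Trim.RI.Stmts
import Pool.Agent.Lib.MP_551055_al.Trim.T4.GlDim
import Pool.Agent.Lib.MP_551055_al.Trim.W17.Peel
import Pool.Agent.Lib.MP_551055_al.Trim.W17.StF
import Pool.Agent.Lib.MP_551055_al.Trim.X.MP_e6f638_al.A
import Pool.Agent.Lib.MP_551055_al.Trim.X.MP_e6f638_al.I1
import Pool.Agent.Lib.MP_551055_al.Trim.X.MP_e6f638_al.Stmts

/-!
# Even Artin groups: the main theorem
-/

set_option autoImplicit false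

namespace Pool.Agent.Lib.MP_e6f638_al
end Pool.Agent.Lib.MP_e6f638_al

namespace Pool.Agent.Lib.MP_551055_al.LS
end Pool.Agent.Lib.MP_551055_al.LS

namespace Pool.Agent.Lib.MP_551055_al.W17
end Pool.Agent.Lib.MP_551055_al.W17

namespace Pool.Agent.Lib.MP_551055_al.EA

open Pool.Agent.Lib.MP_e6f638_al (EA gen par rho retr incl liftEA liftEA_gen hom_ext_EA gen_rel rho_mem rho_not_mem rho_par rho_mem_par gen_mem_par closure_gen incl_gen retr_mem retr_not_mem retr_incl incl_injective)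

open Pool.Agent.Lib.MP_551055_al.LS (TreeAct ZN)

open Pool.Agent.Lib.MP_551055_al.W17 (SF)

section

variable {S : Type} {l : S → S → ℕ}

/-- Retractions of standard subgroups. -/
theorem incl_rho_retr (U : Set S) (Y : Set U) (g : EA l) :
    incl l U (rho (fun a b : U => l a b) Y (retr l U g)) = rho l (Subtype.val '' Y) g := by
  have : ((incl l U).comp (rho (fun a b : U => l a b) Y)).comp (retr l U) =
      rho l (Subtype.val '' Y) := by
    refine hom_ext_EA _ fun s => ?_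
    rw [MonoidHom.comp_apply, MonoidHom.comp_apply]
    by_cases hs : s ∈ U
    · rw [retr_mem l hs]
      by_cases hY : (⟨s, hs⟩ : U) ∈ Y
      · rw [rho_mem _ hY, incl_gen,
          rho_mem l (show s ∈ Subtype.val '' Y from ⟨⟨s, hs⟩, hY, rfl⟩)]
      · rw [rho_not_mem _ hY, map_one, rho_not_mem l]
        rintro ⟨a, ha, rfl⟩
        exact hY ha
    · rw [retr_not_mem l hs, map_one, map_one, rho_not_mem l]
      rintro ⟨a, _, rfl⟩
      exact hs a.2
  exact DFunLike.congr_fun this g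

theorem incl_retr (U : Set S) (g : EA l) : incl l U (retr l U g) = rho l U g := rfl

theorem incl_mem (U : Set S) (Y : Set U) {g : EA (fun a b : U => l a b)}
    (hg : g ∈ par (fun a b : U => l a b) Y) : incl l U g ∈ par l (Subtype.val '' Y) := by
  induction hg using Subgroup.closure_induction with
  | mem x hx =>
    obtain ⟨s, hs, rfl⟩ := hx
    rw [incl_gen]
    exact gen_mem_par l ⟨s, hs, rfl⟩
  | one => rw [map_one]; exact one_mem _
  | mul x y _ _ hx hy => rw [map_mul]; exact mul_mem hx hy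
  | inv x _ hx => rw [map_inv]; exact inv_mem hx

/-- The tree with one vertex. -/
theorem tree_unit (Γ : Type) [Group Γ] (P : Subgroup Γ → Prop) (hP : ∀ H, P H) :
    ∃ (V : Type) (_ : MulAction Γ V) (T : SimpleGraph V), TreeAct Γ V T ∧
      ∀ (v : V) (H : Subgroup Γ), (∀ h ∈ H, h • v = v) → P H := by
  let a : MulAction Γ Unit :=
    { smul := fun _ v => v
      one_smul := fun _ => rfl
      mul_smul := fun _ _ _ => rfl }
  refine ⟨Unit, a, ⊥, ⟨?_, fun _ u v h => h.elim, fun _ u v h => h.elim⟩, fun _ H _ => hP H⟩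
  exact SimpleGraph.IsTree.of_subsingleton

theorem fam_am (hl : ∀ s t, l s t = l t s) (U : Set S) (s t : S) :
    ∃ (V : Type) (_ : MulAction (EA l) V) (T : SimpleGraph V), TreeAct (EA l) V T ∧
      ∀ (v : V) (H : Subgroup (EA l)), (∀ h ∈ H, h • v = v) → PAm l U s t H := by
  by_cases h : s ∈ U ∧ t ∈ U ∧ s ≠ t ∧ l s t = 0
  swap
  · refine tree_unit _ _ fun H h1 h2 h3 h4 => absurd ⟨h1, h2, h3, h4⟩ h
  obtain ⟨hs, ht, hst, h0⟩ := h
  obtain ⟨V, aV, T, hT, hv⟩ := stAm U (fun a b : U => l a b) (fun a b => hl a b) ⟨s, hs⟩ ⟨t, ht⟩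
    (fun h => hst (congrArg Subtype.val h)) h0
  let a' : MulAction (EA l) V := MulAction.compHom V (retr l U)
  refine ⟨V, a', T, TreeAct.comp hT (retr l U) fun _ _ => rfl, fun v H hH _ _ _ _ => ?_⟩
  obtain ⟨x, hx⟩ := hv v
  have key : ∀ (u : S) (hu : u ∈ U),
      (∀ g ∈ MulAction.stabilizer (EA (fun a b : U => l a b)) v,
        x⁻¹ * g * x ∈ par (fun a b : U => l a b) {⟨u, hu⟩}ᶜ) →
      ∀ h ∈ H, (incl l U x)⁻¹ * rho l U h * incl l U x ∈ par l (U \ {u}) := by
    intro u hu h1 h hh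
    have h2 := incl_mem U _ (h1 (retr l U h) (hH h hh))
    rw [map_mul, map_mul, map_inv, incl_retr] at h2
    refine Pool.Agent.Lib.MP_e6f638_al.par_mono l ?_ h2
    rintro _ ⟨a, ha, rfl⟩
    exact ⟨a.2, fun h3 => ha (Subtype.ext h3)⟩
  refine ⟨incl l U x, ?_⟩
  rcases hx with hx | hx
  · exact Or.inl (key s hs hx)
  · exact Or.inr (key t ht hx)

theorem fam_om (hl : ∀ s t, l s t = l t s) (U : Set S) (hU : U.Finite) (u : S) :
    ∃ (V : Type) (_ : MulAction (EA l) V) (T : SimpleGraph V), TreeAct (EA l) V T ∧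
      ∀ (v : V) (H : Subgroup (EA l)), (∀ h ∈ H, h • v = v) → POm l U u H := by
  by_cases h : u ∈ U ∧ Spl l U u ∧ ∃ s ∈ U, s ≠ u ∧ l u s ≠ 1
  swap
  · refine tree_unit _ _ fun H h1 h2 h3 => absurd ⟨h1, h2, h3⟩ h
  obtain ⟨hu, hspl, s, hs, hsu, hus⟩ := h
  have : Finite U := hU
  have hloc : Loc1 (fun a b : U => l a b) ⟨u, hu⟩ ∨ Loc2 (fun a b : U => l a b) ⟨u, hu⟩ := by
    rcases hspl with h | ⟨h, p, q, hpq⟩
    · refine Or.inl fun a b h1 h2 h3 => h a a.2 b b.2 (fun h => h1 (Subtype.ext h))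
        (fun h => h2 (Subtype.ext h)) fun h => h3 (Subtype.ext h)
    · refine Or.inr ⟨fun c x hc hx => h c c.2 x x.2 (fun h => hc (Subtype.ext h))
        fun h => hx (Subtype.ext h), ?_⟩
      classical
      refine ⟨if hp : p ∈ U then ⟨p, hp⟩ else ⟨u, hu⟩, if hq : q ∈ U then ⟨q, hq⟩ else ⟨u, hu⟩,
        fun x hx h2 => ?_⟩
      rcases hpq x x.2 (fun h => hx (Subtype.ext h)) h2 with h | h
      · left
        rw [dif_pos (show p ∈ U from h ▸ x.2)]
        exact Subtype.ext h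
      · right
        rw [dif_pos (show q ∈ U from h ▸ x.2)]
        exact Subtype.ext h
  obtain ⟨V, aV, T, hT, hv⟩ := om_of_w U (fun a b : U => l a b) (fun a b => hl a b) ⟨u, hu⟩
    (fun D hD => w_of_loc (fun a b : U => l a b) (fun a b => hl a b) ⟨u, hu⟩ hloc D hD)
    ⟨⟨s, hs⟩, fun h => hsu (congrArg Subtype.val h), hus⟩
  let a' : MulAction (EA l) V := MulAction.compHom V (retr l U)
  refine ⟨V, a', T, TreeAct.comp hT (retr l U) fun _ _ => rfl, fun v H hH _ _ _ => ?_⟩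
  obtain ⟨V', aV', T', hT', h1, h2⟩ := hv v
  let κ : H.map (rho l U) →* MulAction.stabilizer (EA (fun a b : U => l a b)) v :=
    ((retr l U).comp (H.map (rho l U)).subtype).codRestrict _ (by
      rintro ⟨_, h, hh, rfl⟩
      change retr l U (incl l U (retr l U h)) • v = v
      rw [retr_incl]
      exact hH h hh)
  have hκ : ∀ q, (κ q : EA (fun a b : U => l a b)) = retr l U q := fun _ => rfl
  have hκ1 : ∀ q, κ q = 1 → q = 1 := by
    rintro ⟨_, h, hh, rfl⟩ h3
    have h4 : retr l U (incl l U (retr l U h)) = 1 := congrArg Subtype.val h3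
    rw [retr_incl] at h4
    apply Subtype.ext
    change incl l U (retr l U h) = 1
    rw [h4, map_one]
  let a'' : MulAction (H.map (rho l U)) V' := MulAction.compHom V' κ
  have key : ∀ (Y : Set U) (q : H.map (rho l U)), rho l (Subtype.val '' Y) (q : EA l) = 1 →
      rho (fun a b : U => l a b) Y (κ q : EA (fun a b : U => l a b)) = 1 := by
    intro Y q h3
    refine incl_injective l U ?_
    rw [hκ, incl_rho_retr, h3, map_one]
  refine ⟨V', a'', T', TreeAct.comp hT' κ fun _ _ => rfl, fun w q hw h3 => ?_,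
    fun w w' q hww hw hw' h3 => ?_⟩
  · refine hκ1 q (h1 w (κ q) hw (key _ q ?_))
    rw [← h3]
    congr 2
    ext a
    constructor
    · rintro ⟨a, ha, rfl⟩
      exact ⟨a.2, fun h4 => ha (Subtype.ext h4)⟩
    · rintro ⟨ha, ha'⟩
      exact ⟨⟨a, ha⟩, fun h4 => ha' (congrArg Subtype.val h4), rfl⟩
  · refine hκ1 q (h2 w w' (κ q) hww hw hw' (key _ q ?_))
    rw [← h3]
    congr 2
    ext a
    constructor
    · rintro ⟨a, ha, rfl⟩
      exact ⟨a.2, fun h4 => ha.1 (Subtype.ext h4), ha.2⟩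
    · rintro ⟨ha, ha', ha''⟩
      exact ⟨⟨a, ha⟩, ⟨fun h4 => ha' (congrArg Subtype.val h4), ha''⟩, rfl⟩

/-- The condition of an index. -/
def PIx (l : S → S → ℕ) (F : Set S) : Ix F → Subgroup (EA l) → Prop
  | Sum.inl s => PLi l s
  | Sum.inr (Sum.inl (s, t)) => PPr l s t
  | Sum.inr (Sum.inr (Sum.inl (U, s, t))) => PAm l (Subtype.val '' U) s t
  | Sum.inr (Sum.inr (Sum.inr (U, u))) => POm l (Subtype.val '' U) u

theorem ell_of_PIx {F : Set S} {H : Subgroup (EA l)} (h : ∀ i, PIx l F i H) : Ell l F H where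
  li s hs := h (Sum.inl ⟨s, hs⟩)
  pr s hs t ht := h (Sum.inr (Sum.inl (⟨s, hs⟩, ⟨t, ht⟩)))
  am U hU s t := by
    intro hs ht
    have h1 : (Subtype.val '' {a : F | (a : S) ∈ U}) = U := by
      ext a
      constructor
      · rintro ⟨a, ha, rfl⟩
        exact ha
      · exact fun ha => ⟨⟨a, hU ha⟩, ha, rfl⟩
    have h2 : PAm l (Subtype.val '' {a : F | (a : S) ∈ U}) s t H :=
      h (Sum.inr (Sum.inr (Sum.inl ({a : F | (a : S) ∈ U}, ⟨s, hU hs⟩, ⟨t, hU ht⟩))))
    rw [h1] at h2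
    exact h2 hs ht
  om U hU u := by
    intro hu
    have h1 : (Subtype.val '' {a : F | (a : S) ∈ U}) = U := by
      ext a
      constructor
      · rintro ⟨a, ha, rfl⟩
        exact ha
      · exact fun ha => ⟨⟨a, hU ha⟩, ha, rfl⟩
    have h2 : POm l (Subtype.val '' {a : F | (a : S) ∈ U}) u H :=
      h (Sum.inr (Sum.inr (Sum.inr ({a : F | (a : S) ∈ U}, ⟨u, hU hu⟩))))
    rw [h1] at h2
    exact h2 hu

/-- The trees. -/
theorem exists_family (hl : ∀ s t, l s t = l t s) (F : Set S) (hF : F.Finite) (i : Ix F) :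
    ∃ (V : Type) (_ : MulAction (EA l) V) (T : SimpleGraph V), TreeAct (EA l) V T ∧
      ∀ (v : V) (H : Subgroup (EA l)), (∀ h ∈ H, h • v = v) → PIx l F i H := by
  rcases i with s | ⟨s, t⟩ | ⟨U, s, t⟩ | ⟨U, u⟩
  · obtain ⟨V, a, T, hT, hv⟩ := stLi S l hl s
    exact ⟨V, a, T, hT, fun v H hH h hh => hv v h (hH h hh)⟩
  · by_cases hst : (s : S) = t
    · exact tree_unit _ _ fun H h => absurd hst h
    · obtain ⟨V, a, T, hT, hv⟩ := stPr S l hl s t hst
      refine ⟨V, a, T, hT, fun v H hH _ => ?_⟩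
      obtain ⟨x, hx⟩ := hv v
      exact ⟨x, fun h hh => hx h (hH h hh)⟩
  · exact fam_am hl _ s t
  · exact fam_om hl _ (hF.subset (by rintro _ ⟨a, _, rfl⟩; exact a.2)) u

/-- Theorem T for bundled trees. -/
theorem sf_of_btrees (G : Type) [Group G] (I : Type) [Finite I] (σ : I → RI.BTree G)
    (h : ∀ (v : ∀ i, (σ i).V) (A : Subgroup G), (∀ a ∈ A, ∀ i, a • v i = v i) → TD 2 A) : SF G :=
  sf_of_trees' G I (fun i => (σ i).V) (fun i => (σ i).T) (fun i => (σ i).tree) h

/-- Groups with a homomorphism to a standard subgroup of finite rank which act on finitely many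
trees. -/
theorem sf_of_finite (hl : ∀ s t, l s t = l t s) {j k : ℕ} (hjk : j + k ≤ 2) (F : Set S)
    (hF : F.Finite) (hD : Dpt l k F) (G : Type) [Group G] (f : G →* EA l)
    (hfF : ∀ g, f g ∈ par l F) (I : Type) [Finite I] (W : I → Type) [∀ i, MulAction G (W i)]
    (T' : ∀ i, SimpleGraph (W i)) (hT' : ∀ i, TreeAct G (W i) (T' i))
    (hf : ∀ v : ∀ i, W i, TD j (f.ker ⊓ MulAction.stabilizer G v : Subgroup G)) : SF G := by
  have : Finite F := hF
  choose V a T hT hV using exists_family hl F hF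
  let b : ∀ i, MulAction G (V i) := fun i => MulAction.compHom (V i) f
  let σ : I ⊕ Ix F → RI.BTree G := Sum.elim (fun i => ⟨W i, inferInstance, T' i, hT' i⟩)
    (fun i => ⟨V i, b i, T i, TreeAct.comp (hT i) f fun _ _ => rfl⟩)
  refine sf_of_btrees G (I ⊕ Ix F) σ fun v A hA => ?_
  have hE : Ell l F (A.map f) := by
    refine ell_of_PIx fun i => hV i (v (Sum.inr i)) _ ?_
    rintro _ ⟨g, hg, rfl⟩
    exact hA g hg (Sum.inr i)
  have h1 : TD k ((A.map f).map (rho l F)) := hE.td hD (Set.Subset.refl F)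
  let f' : A →* (A.map f).map (rho l F) := ((rho l F).comp (f.comp A.subtype)).codRestrict _
    fun g => ⟨f g, ⟨g, g.2, rfl⟩, rfl⟩
  refine TD.mono hjk (TD.ext f' ?_ h1)
  refine (hf fun i => v (Sum.inl i)).of_injective _
    ((A.subtype.comp (Subgroup.subtype _)).codRestrict
      (f.ker ⊓ MulAction.stabilizer G fun i => v (Sum.inl i)) fun g => ⟨?_, ?_⟩) ?_
  · have h2 : rho l F (f (g : A)) = 1 := congrArg Subtype.val g.2
    rw [rho_par l (hfF _)] at h2
    exact h2
  · exact funext fun i => hA (g : A) (g : A).2 (Sum.inl i)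
  · intro x y hxy
    exact Subtype.ext (Subtype.ext (congrArg
      (fun z : (f.ker ⊓ MulAction.stabilizer G fun i => v (Sum.inl i) : Subgroup G) => (z : G)) hxy))

/-- Every element is in a standard subgroup of finite rank. -/
theorem exists_finite (g : EA l) : ∃ F : Set S, F.Finite ∧ g ∈ par l F := by
  have hg : g ∈ Subgroup.closure (Set.range (gen l)) := by rw [closure_gen]; trivial
  induction hg using Subgroup.closure_induction with
  | mem x hx =>
    obtain ⟨s, rfl⟩ := hx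
    exact ⟨{s}, Set.finite_singleton s, gen_mem_par l rfl⟩
  | one => exact ⟨∅, Set.finite_empty, one_mem _⟩
  | mul x y _ _ hx hy =>
    obtain ⟨F, hF, h1⟩ := hx
    obtain ⟨F', hF', h2⟩ := hy
    exact ⟨F ∪ F', hF.union hF', mul_mem
      (Pool.Agent.Lib.MP_e6f638_al.par_mono l Set.subset_union_left h1)
      (Pool.Agent.Lib.MP_e6f638_al.par_mono l Set.subset_union_right h2)⟩
  | inv x _ hx =>
    obtain ⟨F, hF, h1⟩ := hx
    exact ⟨F, hF, inv_mem h1⟩

theorem exists_finite_finset {G : Type} [Group G] (f : G →* EA l) (s : Finset G) :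
    ∃ F : Set S, F.Finite ∧ ∀ g ∈ s, f g ∈ par l F := by
  choose F hF h using fun g : G => exists_finite (f g)
  exact ⟨⋃ g ∈ s, F g, s.finite_toSet.biUnion fun g _ => hF g, fun g hg =>
    Pool.Agent.Lib.MP_e6f638_al.par_mono l (Set.subset_biUnion_of_mem (u := F) hg) (h g)⟩

end

end Pool.Agent.Lib.MP_551055_al.EA
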